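import Pool.Agent.N926.Fib.C
import Pool.Agent.N926.Sup2.Cg

set_option autoImplicit false

namespace Pool.Agent.Results.MP_0a65fc_nt.AllFour

open Finset

/-- `r ≡ s (mod p^m)`: `r - s = p^m u` with `u` a rational whose denominator is prime to `p` -/
def Congr (p m : ℕ) (r s : ℚ) : Prop := ∃ u : ℚ, ¬ p ∣ u.den ∧ r - s = (p : ℚ) ^ m * u

/-- the Lucas numbers `L_0 = 2`, `L_1 = 1`, `L_{n+2} = L_{n+1} + L_n` -/
def lucas : ℕ → ℤ
  | 0 => 2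
  | 1 => 1
  | (n+2) => lucas (n+1) + lucas n

/-- the central binomial coefficient -/
def c (k : ℕ) : ℚ := ((2 * k).choose k : ℚ)

instance fact5 : Fact (Nat.Prime 5) := ⟨by norm_num⟩

/-- `ε = (p/5)` -/
noncomputable def eps (p : ℕ) : ℤ := legendreSym 5 (p : ℤ)

/-- the index `p - ε` -/
noncomputable def idx (p : ℕ) : ℕ := ((p : ℤ) - eps p).toNat

/-- `q = F_{p-ε} / p` -/
noncomputable def q (p : ℕ) : ℚ := (Nat.fib (idx p) : ℚ) / p

open Pool.Agent.N926.Sup Pool.Agent.N926.Sup2 Pool.Agent.N926.F54 Pool.Agent.N926.F37 Pool.Agent.N926.Fib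

theorem lucas_eq (n : ℕ) : (lucas n : ℚ) = gL n := by
  have : ∀ n : ℕ, lucas n = luc n := by
    intro n
    induction n using Nat.strong_induction_on with
    | _ n ih =>
      rcases n with _ | _ | n
      · rfl
      · rfl
      · rw [lucas, luc, ih (n+1) (by omega), ih n (by omega)]
  unfold gL
  rw [this]

theorem ab_vals : ab 0 = (1, 0) ∧ ab 1 = (1, -1) ∧ ab 3 = (1, -1) ∧ ab 4 = (1, 0) ∧
    ab 5 = (-1, 0) ∧ ab 6 = (-1, 1) ∧ ab 8 = (-1, 1) ∧ ab 9 = (-1, 0) := by decide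

theorem cd_vals : cd 1 = (-1, 1) ∧ cd 3 = (1, 0) ∧ cd 7 = (1, 0) ∧ cd 9 = (-1, 1) := by decide

/-- the sign is `1` -/
theorem dat_pos (p : ℕ) [hp : Fact p.Prime] {m : ℕ} (hm : p = 2*m+1)
    (aF : ((ab m).1 : ℚ) = (-1)^m) (aL : ((ab m).1 : ℚ) + 2 * ((ab m).2 : ℚ) = (-1)^m)
    (cF : ((cd p).1 : ℚ) = -1) (cL : ((cd p).1 : ℚ) + 2 * ((cd p).2 : ℚ) = 1) :
    Dat p m 1 (gF (p-1)) (gL (p-1)) := by
  obtain ⟨h1, h2⟩ := step (p-1)
  have hp1 : p - 1 + 1 = p := Nat.sub_add_cancel hp.out.one_lt.le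
  rw [hp1] at h1 h2
  refine ⟨by norm_num, Dv.one, by rw [h1]; ring, by rw [h2], ?_, gFi _, gLi _, by rw [aF, mul_one], aL, cF, cL⟩
  have := norm_form (p-1)
  have he : (-1:ℚ)^(p-1) = 1 := Even.neg_one_pow ⟨m, by omega⟩
  rw [he, mul_one] at this
  exact this

/-- the sign is `-1` -/
theorem dat_neg (p : ℕ) [hp : Fact p.Prime] {m : ℕ} (hm : p = 2*m+1)
    (aF : ((ab m).1 : ℚ) = -(-1)^m) (aL : ((ab m).1 : ℚ) + 2 * ((ab m).2 : ℚ) = (-1)^m)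
    (cF : ((cd p).1 : ℚ) = 1) (cL : ((cd p).1 : ℚ) + 2 * ((cd p).2 : ℚ) = 1) :
    Dat p m (-1) (gF (p+1)) (-gL (p+1)) := by
  obtain ⟨h1, h2⟩ := step p
  refine ⟨by norm_num, Dv.one.neg, ?_, ?_, ?_, gFi _, (gLi _).neg, by rw [aF]; ring, aL, by rw [cF]; ring, cL⟩
  · linear_combination (1/2)*h1 - (1/2)*h2
  · linear_combination (-5/2)*h1 + (1/2)*h2
  · have := norm_form (p+1)
    have he : (-1:ℚ)^(p+1) = 1 := Even.neg_one_pow ⟨m+1, by omega⟩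
    rw [he, mul_one] at this
    linear_combination this

theorem leg5 (p : ℕ) [hp : Fact p.Prime] : (p % 5 = 1 ∨ p % 5 = 4 → eps p = 1) ∧ (p % 5 = 2 ∨ p % 5 = 3 → eps p = -1) := by
  unfold eps
  constructor
  · rintro (h | h)
    · rw [legendreSym.mod]
      have : (p:ℤ) % ((5:ℕ):ℤ) = 1 := by push_cast; omega
      rw [this]; norm_num
    · rw [legendreSym.mod]
      have : (p:ℤ) % ((5:ℕ):ℤ) = 4 := by push_cast; omega
      rw [this]; norm_num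
  · rintro (h | h)
    · rw [legendreSym.mod]
      have : (p:ℤ) % ((5:ℕ):ℤ) = 2 := by push_cast; omega
      rw [this]; norm_num
    · rw [legendreSym.mod]
      have : (p:ℤ) % ((5:ℕ):ℤ) = 3 := by push_cast; omega
      rw [this]; norm_num

theorem s10 (q r : ℕ) : (-1:ℚ)^(10*q+r) = (-1)^r := by
  rw [pow_add, pow_mul]; norm_num

theorem exists_dat (p : ℕ) [hp : Fact p.Prime] (h2 : p ≠ 2) (h5 : p ≠ 5) :
    ∃ (m : ℕ) (L : ℚ), p = 2*m+1 ∧ Dat p m (eps p : ℚ) (gF (idx p)) L := by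
  have hodd : p % 2 = 1 := hp.out.eq_two_or_odd.resolve_left h2
  have hn5 : p % 5 ≠ 0 := by
    intro h
    rcases (Nat.dvd_prime hp.out).1 (Nat.dvd_of_mod_eq_zero h) with h | h <;> omega
  have h1 := hp.out.one_lt
  obtain ⟨lp, ln⟩ := leg5 p
  obtain ⟨a0, a1, a3, a4, a5, a6, a8, a9⟩ := ab_vals
  obtain ⟨c1, c3, c7, c9⟩ := cd_vals
  have pos : eps p = 1 → ∀ m : ℕ, p = 2*m+1 → ((ab m).1 : ℚ) = (-1)^m → ((ab m).1 : ℚ) + 2 * ((ab m).2 : ℚ) = (-1)^m →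
      ((cd p).1 : ℚ) = -1 → ((cd p).1 : ℚ) + 2 * ((cd p).2 : ℚ) = 1 →
      ∃ (m : ℕ) (L : ℚ), p = 2*m+1 ∧ Dat p m (eps p : ℚ) (gF (idx p)) L := by
    intro he m hm x1 x2 x3 x4
    refine ⟨m, gL (p-1), hm, ?_⟩
    have hi : idx p = p - 1 := by unfold idx; rw [he]; omega
    rw [he, hi]
    have := dat_pos p hm x1 x2 x3 x4
    simpa using this
  have neg : eps p = -1 → ∀ m : ℕ, p = 2*m+1 → ((ab m).1 : ℚ) = -(-1)^m → ((ab m).1 : ℚ) + 2 * ((ab m).2 : ℚ) = (-1)^m →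
      ((cd p).1 : ℚ) = 1 → ((cd p).1 : ℚ) + 2 * ((cd p).2 : ℚ) = 1 →
      ∃ (m : ℕ) (L : ℚ), p = 2*m+1 ∧ Dat p m (eps p : ℚ) (gF (idx p)) L := by
    intro he m hm x1 x2 x3 x4
    refine ⟨m, -gL (p+1), hm, ?_⟩
    have hi : idx p = p + 1 := by unfold idx; rw [he]; omega
    rw [he, hi]
    have := dat_neg p hm x1 x2 x3 x4
    simpa using this
  obtain ⟨q, hq⟩ : ∃ q, p = 20*q + p % 20 := ⟨p/20, by omega⟩
  have hcase : p % 20 = 1 ∨ p % 20 = 3 ∨ p % 20 = 7 ∨ p % 20 = 9 ∨ p % 20 = 11 ∨ p % 20 = 13 ∨ p % 20 = 17 ∨ p % 20 = 19 := by omega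
  rcases hcase with h | h | h | h | h | h | h | h <;> rw [h] at hq
  · refine pos (lp (by omega)) (10*q+0) (by omega) ?_ ?_ ?_ ?_
    · rw [ab_ten, s10, a0]; norm_num
    · rw [ab_ten, s10, a0]; norm_num
    · rw [hq, show 20*q+1 = 10*(2*q)+1 by ring, cd_ten, c1]; norm_num
    · rw [hq, show 20*q+1 = 10*(2*q)+1 by ring, cd_ten, c1]; norm_num
  · refine neg (ln (by omega)) (10*q+1) (by omega) ?_ ?_ ?_ ?_
    · rw [ab_ten, s10, a1]; norm_num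
    · rw [ab_ten, s10, a1]; norm_num
    · rw [hq, show 20*q+3 = 10*(2*q)+3 by ring, cd_ten, c3]; norm_num
    · rw [hq, show 20*q+3 = 10*(2*q)+3 by ring, cd_ten, c3]; norm_num
  · refine neg (ln (by omega)) (10*q+3) (by omega) ?_ ?_ ?_ ?_
    · rw [ab_ten, s10, a3]; norm_num
    · rw [ab_ten, s10, a3]; norm_num
    · rw [hq, show 20*q+7 = 10*(2*q)+7 by ring, cd_ten, c7]; norm_num
    · rw [hq, show 20*q+7 = 10*(2*q)+7 by ring, cd_ten, c7]; norm_num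
  · refine pos (lp (by omega)) (10*q+4) (by omega) ?_ ?_ ?_ ?_
    · rw [ab_ten, s10, a4]; norm_num
    · rw [ab_ten, s10, a4]; norm_num
    · rw [hq, show 20*q+9 = 10*(2*q)+9 by ring, cd_ten, c9]; norm_num
    · rw [hq, show 20*q+9 = 10*(2*q)+9 by ring, cd_ten, c9]; norm_num
  · refine pos (lp (by omega)) (10*q+5) (by omega) ?_ ?_ ?_ ?_
    · rw [ab_ten, s10, a5]; norm_num
    · rw [ab_ten, s10, a5]; norm_num
    · rw [hq, show 20*q+11 = 10*(2*q+1)+1 by ring, cd_ten, c1]; norm_num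
    · rw [hq, show 20*q+11 = 10*(2*q+1)+1 by ring, cd_ten, c1]; norm_num
  · refine neg (ln (by omega)) (10*q+6) (by omega) ?_ ?_ ?_ ?_
    · rw [ab_ten, s10, a6]; norm_num
    · rw [ab_ten, s10, a6]; norm_num
    · rw [hq, show 20*q+13 = 10*(2*q+1)+3 by ring, cd_ten, c3]; norm_num
    · rw [hq, show 20*q+13 = 10*(2*q+1)+3 by ring, cd_ten, c3]; norm_num
  · refine neg (ln (by omega)) (10*q+8) (by omega) ?_ ?_ ?_ ?_
    · rw [ab_ten, s10, a8]; norm_num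
    · rw [ab_ten, s10, a8]; norm_num
    · rw [hq, show 20*q+17 = 10*(2*q+1)+7 by ring, cd_ten, c7]; norm_num
    · rw [hq, show 20*q+17 = 10*(2*q+1)+7 by ring, cd_ten, c7]; norm_num
  · refine pos (lp (by omega)) (10*q+9) (by omega) ?_ ?_ ?_ ?_
    · rw [ab_ten, s10, a9]; norm_num
    · rw [ab_ten, s10, a9]; norm_num
    · rw [hq, show 20*q+19 = 10*(2*q+1)+9 by ring, cd_ten, c9]; norm_num
    · rw [hq, show 20*q+19 = 10*(2*q+1)+9 by ring, cd_ten, c9]; norm_num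

theorem nat_dvd_of_Dv {p : ℕ} [hp : Fact p.Prime] {n : ℕ} (h : Dv p 1 (n:ℚ)) : p ∣ n := by
  rcases h with h | h
  · have : n = 0 := by exact_mod_cast h
    rw [this]; exact dvd_zero _
  · rw [padicValRat.of_nat] at h
    exact dvd_of_one_le_padicValNat (by exact_mod_cast h)

theorem reindex (p : ℕ) (g : ℕ → ℚ) :
    ∑ k ∈ Finset.Ico 1 p, g (2*k) / ((k:ℚ)^2 * c k) =
    ∑ k ∈ range (p-1), g (2*(k+1)) / (((k+1:ℕ):ℚ)^2 * (((2*(k+1)).choose (k+1) : ℕ):ℚ)) := by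
  rw [Finset.sum_Ico_eq_sum_range]
  refine sum_congr rfl fun k _ => ?_
  rw [add_comm 1 k]
  rfl

/-- **Q1**: all four congruences hold for every prime `p ≠ 2, 5` (and `q` is an integer). -/
theorem result (p : ℕ) [hp : Fact p.Prime] (h2 : p ≠ 2) (h5 : p ≠ 5) :
    p ∣ Nat.fib (idx p) ∧
    Congr p 2 (p * ∑ k ∈ Finset.Ico 1 p, (Nat.fib (2 * k) : ℚ) / ((k : ℚ) ^ 2 * c k))
      (-(eps p * (3 * q p / 2 + 5 * p * q p ^ 2 / 4))) ∧
    Congr p 2 (p * ∑ k ∈ Finset.Ico 1 p, (lucas (2 * k) : ℚ) / ((k : ℚ) ^ 2 * c k))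
      (-(5 * q p / 2) - 15 * p * q p ^ 2 / 4) ∧
    Congr p 2 (∑ k ∈ range ((p - 3) / 2 + 1), c k * (Nat.fib (2 * k + 1) : ℚ) / ((2 * (k : ℚ) + 1) * 16 ^ k))
      ((-1) ^ ((p + 1) / 2) * eps p * (q p / 2 + 5 * p * q p ^ 2 / 8)) ∧
    Congr p 2 (∑ k ∈ range ((p - 3) / 2 + 1), c k * (lucas (2 * k + 1) : ℚ) / ((2 * (k : ℚ) + 1) * 16 ^ k))
      ((-1) ^ ((p + 1) / 2) * (5 * q p / 2 + 5 * p * q p ^ 2 / 8)) := by
  obtain ⟨m, L, hm, D⟩ := exists_dat p h2 h5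
  have hp2 := hp.out.two_le
  have hr : (p - 3) / 2 + 1 = m := by omega
  have he : (p + 1) / 2 = m + 1 := by omega
  rw [hr, he]
  have hq : q p = gF (idx p) / p := rfl
  refine ⟨nat_dvd_of_Dv (uL h2 hm D).1, ?_, ?_, ?_, ?_⟩
  · have := c1 h2 hm D
    rw [← reindex p gF] at this
    rw [hq]
    exact congr_of_Dv this
  · have := c2 h2 hm D
    rw [← reindex p gL] at this
    simp only [lucas_eq]
    rw [hq]
    refine congr_of_Dv (Dv_eq ?_ this)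
    ring
  · have := c3 h2 hm D
    rw [hq]
    exact congr_of_Dv this
  · have := c4 h2 hm D
    simp only [lucas_eq]
    rw [hq]
    exact congr_of_Dv this

end Pool.Agent.Results.MP_0a65fc_nt.AllFour
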